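import Mathlib
import Pool.Agent.H45.Cap.Steps

/-!
# Cap sets of size `2.220889^n`

For all sufficiently large `n` there is a subset of `F_3^n` without nontrivial three-term
progressions which has at least `2.220889^n` elements.

The sets are obtained by eleven successive extended products; two of them use new tables of words
(`Pool.Agent.H45.Cap.C1`, `Pool.Agent.H45.Cap.C2`) which were found by computer search.
-/

namespace Pool.Agent.Results.MP_b30443_co.CapSetGrowthRate

open Pool.Agent.H523R2.Cap Pool.Agent.H45.Cap

/-- `A ⊆ F_3^n` contains no nontrivial three-term progression `x, x + y, x + 2y`, `y ≠ 0`. -/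
def ProgFree {n : ℕ} (A : Finset (Fin n → ZMod 3)) : Prop :=
  ∀ x y : Fin n → ZMod 3, x ∈ A → x + y ∈ A → x + 2 • y ∈ A → y = 0

lemma num : Good 7464960 [8291003034251375222, 9712081857176158349, 8727641801659695227] 8593133 1
    22208892 10000000 = true := by decide +kernel

/-- Cap sets in `F_3^n` of size at least `2.220889^n`, for all large `n`. -/
theorem result : ∃ n0 : ℕ, ∀ n : ℕ, n0 ≤ n → ∃ A : Finset (Fin n → ZMod 3),
    ProgFree A ∧ (2.220889 : ℝ) ^ n ≤ (A.card : ℝ) :=
  finish Tb 3 7464960 [8291003034251375222, 9712081857176158349, 8727641801659695227] 8593133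
    g8 1 (by decide) (by decide) 22208892 10000000 (by decide) 2.220889 (by norm_num)
    (by norm_num) num

end Pool.Agent.Results.MP_b30443_co.CapSetGrowthRate
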