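import Pool.Agent.Helper2.AP.T4P11D2
import Pool.Agent.Helper2.AP.T4P13D2
import Pool.Agent.Helper2.AP.T4P17D2
import Pool.Agent.Helper2.AP.T4P19D2
import Pool.Agent.Helper2.AP.T4P23D2
import Pool.Agent.Helper2.AP.T5P7D3
import Pool.Agent.Helper2.AP.T5P11D2
import Pool.Agent.Helper2.AP.T5P13D2
import Pool.Agent.Helper2.AP.T5P19D2
import Pool.Agent.Helper2.AP.T6P7D3
import Pool.Agent.Helper2.AP.T6P17D2
import Pool.Agent.Helper2.AP.T7P11D2
import Pool.Agent.Helper2.AP.T7P17D2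
import Pool.Agent.Helper2.AP.T8P13D2
import Pool.Agent.Helper2.AP.T9P13D2

/-!
# Lower bounds for `λ_{k,p}`, `4 ≤ k ≤ 9`, `7 ≤ p ≤ 23`

`λ_{k,p}` is the exponential growth rate of the largest subsets of `F_p^n` without nontrivial
`k`-term progressions. Each bound comes from an explicit set `S ⊆ F_p^d` (`d = 2` or `3`) that
carries no balanced weight on its `k`-term progressions; the kernel checks a dual certificate
(integer weights on the pairs position, point). The sets were found by a local search in the space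
of such sets, with moves that add one point and remove at most one point, in which the existence of
a certificate is decided by peeling and, for the remaining core, by a relaxation method started at
the certificate of the previous set.
-/

set_option autoImplicit false

namespace Pool.Agent.Results.MP_b30443_co.GrowthRecords

open Finset

/-- `A ⊆ F_p^n` contains no nontrivial `k`-term progression `x, x+y, …, x+(k-1)y` with `y ≠ 0`. -/
def APFree (k p n : ℕ) (A : Finset (Fin n → ZMod p)) : Prop :=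
  ∀ x y : Fin n → ZMod p, (∀ i : ℕ, i < k → x + i • y ∈ A) → y = 0

/-- `r_k(F_p^n)`: the largest size of a subset of `F_p^n` without nontrivial `k`-term
progressions. -/
noncomputable def r (k p n : ℕ) : ℕ :=
  sSup {m : ℕ | ∃ A : Finset (Fin n → ZMod p), APFree k p n A ∧ A.card = m}

/-- `λ_{k,p} = sup_{n ≥ 1} r_k(F_p^n)^{1/n}`. -/
noncomputable def lam (k p : ℕ) : ℝ :=
  ⨆ n : ℕ, (r k p (n + 1) : ℝ) ^ (1 / ((n : ℝ) + 1))

lemma lam_eq (k p : ℕ) : lam k p = BlockSymmetric.lam k p := rfl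

/-- Lower bounds for `λ_{k,p}`. -/
theorem result :
    (53 ≤ lam 4 11 ^ 2 ∧ 70 ≤ lam 4 13 ^ 2 ∧ 110 ≤ lam 4 17 ^ 2 ∧ 132 ≤ lam 4 19 ^ 2 ∧
      177 ≤ lam 4 23 ^ 2) ∧
    (168 ≤ lam 5 7 ^ 3 ∧ 73 ≤ lam 5 11 ^ 2 ∧ 102 ≤ lam 5 13 ^ 2 ∧ 200 ≤ lam 5 19 ^ 2) ∧
    (169 ≤ lam 6 7 ^ 3 ∧ 173 ≤ lam 6 17 ^ 2) ∧
    (88 ≤ lam 7 11 ^ 2 ∧ 210 ≤ lam 7 17 ^ 2) ∧
    125 ≤ lam 8 13 ^ 2 ∧ 131 ≤ lam 9 13 ^ 2 := by
  refine ⟨⟨?_, ?_, ?_, ?_, ?_⟩, ⟨?_, ?_, ?_, ?_⟩, ⟨?_, ?_⟩, ⟨?_, ?_⟩, ?_, ?_⟩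
  · exact_mod_cast Helper2.AP.t4p11d2_lam
  · exact_mod_cast Helper2.AP.t4p13d2_lam
  · exact_mod_cast Helper2.AP.t4p17d2_lam
  · exact_mod_cast Helper2.AP.t4p19d2_lam
  · exact_mod_cast Helper2.AP.t4p23d2_lam
  · exact_mod_cast Helper2.AP.t5p7d3_lam
  · exact_mod_cast Helper2.AP.t5p11d2_lam
  · exact_mod_cast Helper2.AP.t5p13d2_lam
  · exact_mod_cast Helper2.AP.t5p19d2_lam
  · exact_mod_cast Helper2.AP.t6p7d3_lam
  · exact_mod_cast Helper2.AP.t6p17d2_lam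
  · exact_mod_cast Helper2.AP.t7p11d2_lam
  · exact_mod_cast Helper2.AP.t7p17d2_lam
  · exact_mod_cast Helper2.AP.t8p13d2_lam
  · exact_mod_cast Helper2.AP.t9p13d2_lam

end Pool.Agent.Results.MP_b30443_co.GrowthRecords
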