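import Pool.Agent.H148.SR.Power

/-!
# The slice rank method gives nothing for progressions of length at least four

The proof of `λ_{3,3} < 3` by Croot, Lev, Pach, Ellenberg and Gijswijt, in the form of Tao: if
`f : (F_p^n)^k → F` vanishes at all `k`-tuples which are not `k`-term progressions and does not
vanish at the constant `k`-tuples, then a set without nontrivial `k`-term progressions has at most as
many elements as the slice rank of `f`; for `k = 3` a suitable `f` has small slice rank.

We show that for `k ≥ 4` *every* such `f`, over any field, has slice rank exactly `p^n`, for all
`n` and `p`; and the same after the restriction to any subset `X` of `F_p^n`: the slice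
rank is `|X|`. The same is true for all abelian groups (finite or not), and for the weighted
slice ranks of Derksen (`G`-stable rank): if in some bases of the `k` copies of `F^X`, with weights on
the basis vectors, all coefficients of `f` of total weight less than one vanish, then the sum of the
weights is at least `|X|`. So `k = 3` is the only case in which the method works.

Proof. A progression is determined by its first two terms, and also by its next two terms. Let
`T` be a tensor with this property whose support is moreover uniformly distributed in every
coordinate, and suppose that `T` vanishes on `U_1 × ... × U_k`. Restricting products of functions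
in `U_1, U_2` (respectively in the other `U_i`) to the support gives two orthogonal spaces of
functions on the support, whose dimensions can be bounded below by a triangularity argument; it
follows that the sum of the codimensions of the `U_i` is at least the number of points
(`H148/SR/Pairing.lean`). The support of `f` need not be uniformly distributed, since `f` may vanish
at nontrivial progressions; but the restriction of the tensor power `f^{⊗m}` to a type class
`Y ⊆ X^m` has this property, because the symmetric group acts transitively on `Y`. For large `m`
there is a type class with at least `|X|^m / (m + 1)^{|X|}` elements, and if the total weight were less than `|X|`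
then by Chernoff's bound `f^{⊗m}` would vanish on subspaces of exponentially small relative
codimension (`H148/SR/Tail.lean`, `H148/SR/Power.lean`).
-/

set_option autoImplicit false

namespace Pool.Agent.Results.MP_b30443_co.SliceRankFour

open Finset Pool.Agent.H148.SR

universe u v

/-- **The slice rank method gives nothing for `k`-term progressions, `k ≥ 4`.** -/
theorem result (G : Type u) [AddCommGroup G] (k : ℕ)
    (hk : 4 ≤ k) (X : Finset G) (F : Type v) [Field F] (f : (Fin k → X) → F)
    (hdiag : ∀ a : X, f (fun _ => a) ≠ 0)
    (hsupp : ∀ x : Fin k → X, f x ≠ 0 → ∃ b r : G, ∀ i : Fin k, (x i : G) = b + (i : ℕ) • r) :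
    IsLeast {r : ℕ | SliceRankLE f r} X.card ∧
    ∀ (g : Fin k → X → X → F) (w : Fin k → X → ℝ), (∀ i, LinearIndependent F (g i)) →
      (∀ s : Fin k → X, ∑ i, w i (s i) < 1 → ∑ x : Fin k → X, f x * ∏ i, g i (s i) (x i) = 0) →
      (X.card : ℝ) ≤ ∑ i, ∑ s, w i s := by
  classical
  -- two consecutive terms determine the progression
  have hdet : ∀ (j : ℕ) (hj : j + 1 < k) (x y : Fin k → X), f x ≠ 0 → f y ≠ 0 →
      x ⟨j, by omega⟩ = y ⟨j, by omega⟩ → x ⟨j + 1, hj⟩ = y ⟨j + 1, hj⟩ → x = y := by
    intro j hj x y hx hy h0 h1
    obtain ⟨b, r, hb⟩ := hsupp x hx
    obtain ⟨b', r', hb'⟩ := hsupp y hy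
    have e0 : b + j • r = b' + j • r' := by
      have := congrArg (Subtype.val) h0
      rw [hb, hb'] at this
      exact this
    have e1 : b + (j + 1) • r = b' + (j + 1) • r' := by
      have := congrArg (Subtype.val) h1
      rw [hb, hb'] at this
      exact this
    have hr : r = r' := by
      rw [add_smul, add_smul, one_smul, one_smul, ← add_assoc, ← add_assoc, e0] at e1
      exact add_left_cancel e1
    subst hr
    have hbb : b = b' := add_right_cancel e0
    subst hbb
    funext i
    exact Subtype.ext (by rw [hb, hb'])
  let S : Finset (Fin k) := {⟨0, by omega⟩, ⟨1, by omega⟩}
  have hS1 : ∀ x y : Fin k → X, f x ≠ 0 → f y ≠ 0 → (∀ i ∈ S, x i = y i) → x = y := by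
    intro x y hx hy h
    exact hdet 0 (by omega) x y hx hy (h _ (by simp [S])) (h _ (by simp [S]))
  have hS2 : ∀ x y : Fin k → X, f x ≠ 0 → f y ≠ 0 → (∀ i ∈ Sᶜ, x i = y i) → x = y := by
    intro x y hx hy h
    exact hdet 2 (by omega) x y hx hy (h _ (by simp [S])) (h _ (by simp [S]))
  have hcard : Fintype.card X = X.card := Fintype.card_coe X
  refine ⟨⟨?_, ?_⟩, ?_⟩
  · have := slices_card (A := X) (by omega : 0 < k) f
    rwa [hcard] at this
  · intro r hr
    have := slices_of_split f hdiag S hS1 hS2 r hr
    rwa [hcard] at this
  · intro g w hg h0
    have := weights_of_split f hdiag S hS1 hS2 g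
      (fun i => Matrix.linearIndependent_rows_iff_isUnit.mp (hg i)) w h0
    rwa [hcard] at this

end Pool.Agent.Results.MP_b30443_co.SliceRankFour
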